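import Pool.Agent.H6.AK.Stmts

set_option autoImplicit false
set_option linter.all false

namespace Pool.Agent.H2.AK

open Pool.Agent.H6.AK

theorem LST_thm (hGRD : GRDStmt) (hRAT : RATStmt) : LSTStmt := by
  classical
  intro m N k s P eta h0 h1 hsk hP heta hN
  have hk : k ≤ P.card := by omega
  have key := hGRD (Finset (Fin m)) (Finset (Fin m)) (P.powersetCard k)
    (Finset.univ.filter fun S => (S ∩ P).card ≤ s) (fun S a => Disjoint a S) eta N
    (Finset.powersetCard_nonempty.2 hk) h0 h1 ?_ ?_
  · obtain ⟨l, hl, hl'⟩ := key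
    refine ⟨l, fun t => ?_, fun S hS => ?_⟩
    · have := Finset.mem_powersetCard.1 (hl t)
      exact ⟨this.2, this.1⟩
    · exact hl' S (Finset.mem_filter.2 ⟨Finset.mem_univ _, hS⟩)
  · intro S hS
    have hS' : (S ∩ P).card ≤ s := (Finset.mem_filter.1 hS).2
    have hsub : (P \ S).powersetCard k ⊆ (P.powersetCard k).filter fun a => Disjoint a S := by
      intro a ha
      rw [Finset.mem_powersetCard] at ha
      rw [Finset.mem_filter, Finset.mem_powersetCard]
      refine ⟨⟨ha.1.trans Finset.sdiff_subset, ha.2⟩, ?_⟩
      exact Finset.disjoint_of_subset_left ha.1 Finset.sdiff_disjoint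
    have hc1 : ((P \ S).card.choose k) ≤
        ((P.powersetCard k).filter fun a => Disjoint a S).card := by
      rw [← Finset.card_powersetCard]
      exact Finset.card_le_card hsub
    have hc2 : P.card - s ≤ (P \ S).card := by
      have h3 := Finset.card_sdiff_add_card_inter P S
      have h4 : (P ∩ S).card = (S ∩ P).card := by rw [Finset.inter_comm]
      omega
    have hc3 : (P.card - s).choose k ≤ (P \ S).card.choose k := Nat.choose_le_choose k hc2
    have hr := hRAT P.card (P.card - s) k hP (by omega) (by omega)
    have hr2 : eta * ((P.card.choose k : ℕ) : ℝ) ≤ (((P.card - s).choose k : ℕ) : ℝ) := by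
      refine le_trans ?_ hr
      exact mul_le_mul_of_nonneg_right heta (Nat.cast_nonneg _)
    rw [Finset.card_powersetCard]
    refine hr2.trans ?_
    exact_mod_cast hc3.trans hc1
  · have hW : ((Finset.univ.filter fun S : Finset (Fin m) => (S ∩ P).card ≤ s).card : ℝ) ≤
        (2 : ℝ) ^ m := by
      have h5 := Finset.card_filter_le (Finset.univ : Finset (Finset (Fin m)))
        (fun S => (S ∩ P).card ≤ s)
      rw [Finset.card_univ, Fintype.card_finset, Fintype.card_fin] at h5
      exact_mod_cast h5
    refine lt_of_le_of_lt ?_ hN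
    exact mul_le_mul_of_nonneg_right hW (pow_nonneg (by linarith) _)

end Pool.Agent.H2.AK
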