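import Pool.Agent.H6.AK.Stmts

set_option autoImplicit false
set_option linter.all false

namespace Pool.Agent.H2.AK

open Pool.Agent.H6.AK

theorem PAR_thm (hLST : LSTStmt) : PARStmt := by
  classical
  intro q n N hq hn hN
  set m := q * (q + 2) * n ^ 2 with hm
  set k := n ^ 2 with hk
  have hk1 : 1 ≤ k := Nat.one_le_pow _ _ hn
  have hqr : (4 : ℝ) ≤ q := by exact_mod_cast hq
  have hq0 : (0 : ℝ) < q := by linarith
  have hkr : (1 : ℝ) ≤ k := by exact_mod_cast hk1
  have hb0 : 0 ≤ 1 - 2 / (q : ℝ) := by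
    rw [sub_nonneg, div_le_one hq0]
    linarith
  have hb1 : 1 - 2 / (q : ℝ) ≤ 1 := by
    have : 0 ≤ 2 / (q : ℝ) := by positivity
    linarith
  have he0 : 0 ≤ (1 - 2 / (q : ℝ)) ^ k := pow_nonneg hb0 _
  have he1 : (1 - 2 / (q : ℝ)) ^ k ≤ 1 := pow_le_one₀ hb0 hb1
  have hA : ∀ x : Fin m → Bool, ∃ l : Fin N → Finset (Fin m), (∀ t, (l t).card = k) ∧
      (q * k ≤ (Z x).card → (∀ t, l t ⊆ Z x) ∧
        ∀ S : Finset (Fin m), (S ∩ Z x).card ≤ k → ∃ t, Disjoint (l t) S) := by
    intro x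
    by_cases hx : q * k ≤ (Z x).card
    · have h2k : 2 * k ≤ q * k := Nat.mul_le_mul_right _ (by omega)
      have hP1 : 1 ≤ (Z x).card := by omega
      have hPr : (0 : ℝ) < (Z x).card := by exact_mod_cast hP1
      have hbase : 1 - 2 / (q : ℝ) ≤ (((Z x).card - k + 1 - k : ℕ) : ℝ) / ((Z x).card : ℝ) := by
        rw [le_div_iff₀ hPr]
        have h3 : (((Z x).card - k + 1 - k : ℕ) : ℝ) = (Z x).card + 1 - 2 * k := by
          have : (Z x).card - k + 1 - k + 2 * k = (Z x).card + 1 := by omega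
          have h4 : (((Z x).card - k + 1 - k : ℕ) : ℝ) + 2 * k = (Z x).card + 1 := by
            exact_mod_cast this
          linarith
        rw [h3]
        have h5 : (q : ℝ) * k ≤ (Z x).card := by exact_mod_cast hx
        have h6 : 2 * (k : ℝ) ≤ 2 / (q : ℝ) * (Z x).card := by
          rw [div_mul_eq_mul_div, le_div_iff₀ hq0]
          nlinarith
        have h7 : (1 - 2 / (q : ℝ)) * (Z x).card = (Z x).card - 2 / (q : ℝ) * (Z x).card := by ring
        rw [h7]
        linarith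
      obtain ⟨l, hl, hl'⟩ := hLST m N k k (Z x) ((1 - 2 / (q : ℝ)) ^ k) he0 he1 (by omega) hP1
        (pow_le_pow_left₀ hb0 hbase _) hN
      exact ⟨l, fun t => (hl t).1, fun _ => ⟨fun t => (hl t).2, hl'⟩⟩
    · have hkm : k ≤ (Finset.univ : Finset (Fin m)).card := by
        rw [Finset.card_univ, Fintype.card_fin, hm]
        exact Nat.le_mul_of_pos_left _ (by positivity)
      obtain ⟨T, -, hT⟩ := Finset.exists_subset_card_eq hkm
      exact ⟨fun _ => T, fun _ => hT, fun h => absurd h hx⟩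
  have hB : ∃ l : Fin N → Finset (Fin m), (∀ t, (l t).card = k) ∧
      ∀ S : Finset (Fin m), S.card ≤ (q + 1) * k → ∃ t, Disjoint (l t) S := by
    have hcard : (Finset.univ : Finset (Fin m)).card = m := by
      rw [Finset.card_univ, Fintype.card_fin]
    have hmk : (q + 2) * k ≤ m := by
      rw [hm, mul_assoc]
      exact Nat.le_mul_of_pos_left _ (by omega)
    have hm1 : 1 ≤ m := by
      have : 1 ≤ (q + 2) * k := Nat.mul_pos (by omega) hk1
      omega
    have hmr : (0 : ℝ) < m := by exact_mod_cast hm1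
    have hs : (q + 1) * k + k = (q + 2) * k := by ring
    have hbase : 1 - 2 / (q : ℝ) ≤ ((m - (q + 1) * k + 1 - k : ℕ) : ℝ) / (m : ℝ) := by
      rw [le_div_iff₀ hmr]
      have h3 : ((m - (q + 1) * k + 1 - k : ℕ) : ℝ) = m + 1 - (q + 2) * k := by
        have : m - (q + 1) * k + 1 - k + (q + 2) * k = m + 1 := by omega
        have h4 : ((m - (q + 1) * k + 1 - k : ℕ) : ℝ) + (q + 2) * k = m + 1 := by
          exact_mod_cast this
        linarith
      rw [h3]
      have h5 : (m : ℝ) = q * ((q + 2) * k) := by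
        rw [hm]
        push_cast
        ring
      have h6 : 2 / (q : ℝ) * m = 2 * ((q + 2) * k) := by
        rw [h5]
        field_simp
      have h7 : (1 - 2 / (q : ℝ)) * m = m - 2 / (q : ℝ) * m := by ring
      rw [h7, h6]
      have h8 : (0 : ℝ) ≤ ((q : ℝ) + 2) * k := by positivity
      linarith
    obtain ⟨l, hl, hl'⟩ := hLST m N k ((q + 1) * k) Finset.univ ((1 - 2 / (q : ℝ)) ^ k) he0 he1
      (by rw [hcard]; omega) (by rw [hcard]; exact hm1)
      (by rw [hcard]; exact pow_le_pow_left₀ hb0 hbase _) hN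
    exact ⟨l, fun t => (hl t).1, fun S hS => hl' S (by rwa [Finset.inter_univ])⟩
  choose la hla hla' using hA
  obtain ⟨lb, hlb, hlb'⟩ := hB
  exact ⟨la, lb, hla, hlb, hla', hlb'⟩

end Pool.Agent.H2.AK
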